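import Pool.Agent.N236.UR.Stm

/-!
Project UR (helper236), part STG: the power stage.
-/

set_option autoImplicit false

namespace Pool.Agent.N160.UR.STG

open Finset Pool.Agent.N236.UR Pool.Agent.N236.UB

variable {L : Type} [Field L] {v : AbsoluteValue L ℝ}

/-! ### The polynomial `Phi` -/

/-- the norm of a vector -/
noncomputable def nu (v : AbsoluteValue L ℝ) (x : L × L) : ℝ := max (v x.1) (v x.2)

theorem nu_nonneg (x : L × L) : 0 ≤ nu v x := le_trans (v.nonneg _) (le_max_left _ _)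

/-- the quotient `wd (pw x) (pw y) / wd x y` -/
def Phi (l : ℕ) (x y : L × L) : L :=
  ∑ t ∈ range l, (x.1 * y.2) ^ t * (x.2 * y.1) ^ (l - 1 - t)

theorem Phi_wd (l : ℕ) (x y : L × L) : wd (pw l x) (pw l y) = wd x y * Phi l x y := by
  have h := geom_sum₂_mul (x.1 * y.2) (x.2 * y.1) l
  unfold wd pw Phi
  simp only
  rw [mul_comm (x.1 * y.2 - x.2 * y.1), h, mul_pow, mul_pow]

theorem Phi_comm (l : ℕ) (x y : L × L) : Phi l x y = Phi l y x := by
  unfold Phi
  rw [(Commute.all (x.1 * y.2) (x.2 * y.1)).geom_sum₂_comm]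
  refine sum_congr rfl fun t _ => ?_
  rw [mul_comm x.2 y.1, mul_comm x.1 y.2]

theorem Phi_swap (l : ℕ) (x y : L × L) : Phi l (x.2, x.1) (y.2, y.1) = Phi l x y := by
  unfold Phi
  simp only
  rw [(Commute.all (x.1 * y.2) (x.2 * y.1)).geom_sum₂_comm]

theorem Phi_smul (l : ℕ) (x y : L × L) (s : L) :
    Phi l x (s * y.1, s * y.2) = s ^ (l - 1) * Phi l x y := by
  unfold Phi
  rw [mul_sum]
  refine sum_congr rfl fun t ht => ?_
  have ht' := mem_range.1 ht
  simp only
  have h : s ^ (l - 1) = s ^ t * s ^ (l - 1 - t) := by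
    rw [← pow_add]
    congr 1
    omega
  rw [h, mul_left_comm x.1 s y.2, mul_left_comm x.2 s y.1, mul_pow, mul_pow]
  ring

theorem pow_diff (hna : ∀ x y : L, v (x + y) ≤ max (v x) (v y)) {a b : L} {M : ℝ} (hM : 0 < M)
    (ha : v a ≤ M) (hb : v b ≤ M) (h : v (a - b) < M) (t : ℕ) : v (a ^ t - b ^ t) < M ^ t := by
  induction t with
  | zero => simp
  | succ t ih =>
    have e : a ^ (t + 1) - b ^ (t + 1) = a ^ t * (a - b) + (a ^ t - b ^ t) * b := by ring
    rw [e]
    refine (hna _ _).trans_lt (max_lt ?_ ?_)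
    · rw [map_mul, map_pow, pow_succ]
      calc v a ^ t * v (a - b) ≤ M ^ t * v (a - b) :=
            mul_le_mul_of_nonneg_right (pow_le_pow_left₀ (v.nonneg _) ha t) (v.nonneg _)
        _ < M ^ t * M := mul_lt_mul_of_pos_left h (pow_pos hM t)
    · rw [map_mul, pow_succ]
      calc v (a ^ t - b ^ t) * v b ≤ v (a ^ t - b ^ t) * M :=
            mul_le_mul_of_nonneg_left hb (v.nonneg _)
        _ < M ^ t * M := mul_lt_mul_of_pos_right ih hM

theorem mono_diff (hna : ∀ x y : L, v (x + y) ≤ max (v x) (v y)) {a b a' b' : L} {M : ℝ}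
    (hM : 0 < M) (ha : v a ≤ M) (hb : v b ≤ M) (ha' : v a' ≤ M) (hb' : v b' ≤ M)
    (h : v (a - a') < M) (h' : v (b - b') < M) (t r : ℕ) :
    v (a ^ t * b ^ r - a' ^ t * b' ^ r) < M ^ (t + r) := by
  have e : a ^ t * b ^ r - a' ^ t * b' ^ r = (a ^ t - a' ^ t) * b ^ r + a' ^ t * (b ^ r - b' ^ r) := by
    ring
  rw [e, pow_add]
  refine (hna _ _).trans_lt (max_lt ?_ ?_)
  · rw [map_mul, map_pow]
    calc v (a ^ t - a' ^ t) * v b ^ r ≤ v (a ^ t - a' ^ t) * M ^ r :=
          mul_le_mul_of_nonneg_left (pow_le_pow_left₀ (v.nonneg _) hb r) (v.nonneg _)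
      _ < M ^ t * M ^ r := mul_lt_mul_of_pos_right (pow_diff hna hM ha ha' h t) (pow_pos hM r)
  · rw [map_mul, map_pow]
    calc v a' ^ t * v (b ^ r - b' ^ r) ≤ M ^ t * v (b ^ r - b' ^ r) :=
          mul_le_mul_of_nonneg_right (pow_le_pow_left₀ (v.nonneg _) ha' t) (v.nonneg _)
      _ < M ^ t * M ^ r := mul_lt_mul_of_pos_left (pow_diff hna hM hb hb' h' r) (pow_pos hM t)

theorem sum_lt (hna : ∀ x y : L, v (x + y) ≤ max (v x) (v y)) {M : ℝ} (hM : 0 < M) (s : Finset ℕ)
    (f : ℕ → L) (h : ∀ i ∈ s, v (f i) < M) : v (∑ i ∈ s, f i) < M :=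
  Finset.sum_induction f (fun x => v x < M) (fun a b ha hb => (hna a b).trans_lt (max_lt ha hb))
    (by simpa using hM) h

theorem sum_le (hna : ∀ x y : L, v (x + y) ≤ max (v x) (v y)) {M : ℝ} (hM : 0 ≤ M) (s : Finset ℕ)
    (f : ℕ → L) (h : ∀ i ∈ s, v (f i) ≤ M) : v (∑ i ∈ s, f i) ≤ M :=
  Finset.sum_induction f (fun x => v x ≤ M) (fun a b ha hb => (hna a b).trans (max_le ha hb))
    (by simpa using hM) h

theorem v1_le (x y : L × L) : v (x.1 * y.2) ≤ nu v x * nu v y := by
  rw [map_mul]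
  exact mul_le_mul (le_max_left _ _) (le_max_right _ _) (v.nonneg _) (nu_nonneg _)

theorem v2_le (x y : L × L) : v (x.2 * y.1) ≤ nu v x * nu v y := by
  rw [map_mul]
  exact mul_le_mul (le_max_right _ _) (le_max_left _ _) (v.nonneg _) (nu_nonneg _)

theorem Phi_le (hna : ∀ x y : L, v (x + y) ≤ max (v x) (v y)) (l : ℕ) (x y : L × L) :
    v (Phi l x y) ≤ (nu v x * nu v y) ^ (l - 1) := by
  have hM : 0 ≤ nu v x * nu v y := mul_nonneg (nu_nonneg _) (nu_nonneg _)
  refine sum_le hna (pow_nonneg hM _) _ _ fun t ht => ?_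
  have ht' := mem_range.1 ht
  rw [map_mul, map_pow, map_pow]
  have h : l - 1 = t + (l - 1 - t) := by omega
  calc v (x.1 * y.2) ^ t * v (x.2 * y.1) ^ (l - 1 - t)
      ≤ (nu v x * nu v y) ^ t * (nu v x * nu v y) ^ (l - 1 - t) :=
        mul_le_mul (pow_le_pow_left₀ (v.nonneg _) (v1_le x y) t)
          (pow_le_pow_left₀ (v.nonneg _) (v2_le x y) _) (pow_nonneg (v.nonneg _) _)
          (pow_nonneg hM _)
    _ = (nu v x * nu v y) ^ (l - 1) := by rw [← pow_add, ← h]

theorem Phi_diff (hna : ∀ x y : L, v (x + y) ≤ max (v x) (v y)) (l : ℕ) (x Y Y' : L × L) {N : ℝ}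
    (hN : 0 < N) (hx : 0 < nu v x) (hY : nu v Y ≤ N) (hY' : nu v Y' ≤ N)
    (h1 : v (Y.1 - Y'.1) < N) (h2 : v (Y.2 - Y'.2) < N) :
    v (Phi l x Y - Phi l x Y') < (nu v x * N) ^ (l - 1) := by
  have hM : 0 < nu v x * N := mul_pos hx hN
  unfold Phi
  rw [← Finset.sum_sub_distrib]
  refine sum_lt hna (pow_pos hM _) _ _ fun t ht => ?_
  have ht' := mem_range.1 ht
  have h : l - 1 = t + (l - 1 - t) := by omega
  have e1 : x.1 * Y.2 - x.1 * Y'.2 = x.1 * (Y.2 - Y'.2) := by ring
  have e2 : x.2 * Y.1 - x.2 * Y'.1 = x.2 * (Y.1 - Y'.1) := by ring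
  have hh := mono_diff hna (a := x.1 * Y.2) (b := x.2 * Y.1) (a' := x.1 * Y'.2) (b' := x.2 * Y'.1)
    hM ((v1_le x Y).trans (mul_le_mul_of_nonneg_left hY hx.le))
    ((v2_le x Y).trans (mul_le_mul_of_nonneg_left hY hx.le))
    ((v1_le x Y').trans (mul_le_mul_of_nonneg_left hY' hx.le))
    ((v2_le x Y').trans (mul_le_mul_of_nonneg_left hY' hx.le))
    (by
      rw [e1, map_mul]
      calc v x.1 * v (Y.2 - Y'.2) ≤ nu v x * v (Y.2 - Y'.2) :=
            mul_le_mul_of_nonneg_right (le_max_left _ _) (v.nonneg _)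
        _ < nu v x * N := mul_lt_mul_of_pos_left h2 hx)
    (by
      rw [e2, map_mul]
      calc v x.2 * v (Y.1 - Y'.1) ≤ nu v x * v (Y.1 - Y'.1) :=
            mul_le_mul_of_nonneg_right (le_max_right _ _) (v.nonneg _)
        _ < nu v x * N := mul_lt_mul_of_pos_left h1 hx) t (l - 1 - t)
  rwa [← h] at hh

theorem key1 (hna : ∀ x y : L, v (x + y) ≤ max (v x) (v y)) (l : ℕ) (X U J J' : L × L)
    (hX : 0 < nu v X) (hU : 0 < nu v U) (hJ : 0 < nu v J) (hJ' : 0 < nu v J') (h1 : v J.2 ≤ v J.1)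
    (hrel : v (wd J J') < nu v J * nu v J') :
    v (Phi l X J * Phi l U J' - Phi l X J' * Phi l U J) <
      (nu v X * nu v U * (nu v J * nu v J')) ^ (l - 1) := by
  have hnJ : nu v J = v J.1 := max_eq_left h1
  have hJ1 : 0 < v J.1 := hnJ ▸ hJ
  have hJ10 : J.1 ≠ 0 := fun h => by rw [h, map_zero] at hJ1; exact lt_irrefl _ hJ1
  have hnJ' : nu v J' = v J'.1 := by
    by_contra hne
    have hlt : v J'.1 < nu v J' := lt_of_le_of_ne (le_max_left _ _) (Ne.symm hne)
    have h2 : nu v J' = v J'.2 := by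
      unfold nu at hlt ⊢
      rcases le_total (v J'.1) (v J'.2) with h | h
      · exact max_eq_right h
      · rw [max_eq_left h] at hlt
        exact absurd hlt (lt_irrefl _)
    have h3 : J.1 * J'.2 = wd J J' + J.2 * J'.1 := by unfold wd; ring
    have h4 : v (J.1 * J'.2) < nu v J * nu v J' := by
      rw [h3]
      refine (hna _ _).trans_lt (max_lt hrel ?_)
      rw [map_mul]
      calc v J.2 * v J'.1 ≤ nu v J * v J'.1 :=
            mul_le_mul_of_nonneg_right (le_max_right _ _) (v.nonneg _)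
        _ < nu v J * nu v J' := mul_lt_mul_of_pos_left hlt hJ
    rw [map_mul, ← hnJ, ← h2] at h4
    exact lt_irrefl _ h4
  obtain ⟨s, hs⟩ : ∃ s, s = J'.1 / J.1 := ⟨_, rfl⟩
  have hsJ : s * J.1 = J'.1 := by rw [hs]; field_simp
  have hvs : v s * v J.1 = nu v J' := by rw [← map_mul, hsJ, hnJ']
  have hE : ∀ x : L × L, 0 < nu v x →
      v (Phi l x J' - s ^ (l - 1) * Phi l x J) < (nu v x * nu v J') ^ (l - 1) := by
    intro x hx
    rw [← Phi_smul]
    refine Phi_diff hna l x J' (s * J.1, s * J.2) hJ' hx le_rfl ?_ ?_ ?_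
    · unfold nu
      refine max_le ?_ ?_
      · simp only [map_mul]
        exact hvs.le
      · simp only [map_mul]
        exact (mul_le_mul_of_nonneg_left h1 (v.nonneg _)).trans hvs.le
    · simp only
      rw [hsJ, sub_self, map_zero]
      exact hJ'
    · simp only
      have h2 : J.1 * (J'.2 - s * J.2) = wd J J' := by
        have : J.1 * (J'.2 - s * J.2) = J.1 * J'.2 - (s * J.1) * J.2 := by ring
        rw [this, hsJ]
        unfold wd
        ring
      have h3 : v J.1 * v (J'.2 - s * J.2) < v J.1 * nu v J' := by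
        rw [← map_mul, h2, ← hnJ]
        exact hrel
      exact lt_of_mul_lt_mul_left h3 hJ1.le
  have e : Phi l X J * Phi l U J' - Phi l X J' * Phi l U J =
      Phi l X J * (Phi l U J' - s ^ (l - 1) * Phi l U J) +
        -((Phi l X J' - s ^ (l - 1) * Phi l X J) * Phi l U J) := by ring
  rw [e]
  refine (hna _ _).trans_lt (max_lt ?_ ?_)
  · rw [map_mul]
    calc v (Phi l X J) * v (Phi l U J' - s ^ (l - 1) * Phi l U J)
        ≤ (nu v X * nu v J) ^ (l - 1) * v (Phi l U J' - s ^ (l - 1) * Phi l U J) :=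
          mul_le_mul_of_nonneg_right (Phi_le hna l X J) (v.nonneg _)
      _ < (nu v X * nu v J) ^ (l - 1) * (nu v U * nu v J') ^ (l - 1) :=
          mul_lt_mul_of_pos_left (hE U hU) (pow_pos (mul_pos hX hJ) _)
      _ = (nu v X * nu v U * (nu v J * nu v J')) ^ (l - 1) := by
          rw [← mul_pow]
          congr 1
          ring
  · rw [map_neg_eq_map, map_mul]
    calc v (Phi l X J' - s ^ (l - 1) * Phi l X J) * v (Phi l U J)
        ≤ v (Phi l X J' - s ^ (l - 1) * Phi l X J) * (nu v U * nu v J) ^ (l - 1) :=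
          mul_le_mul_of_nonneg_left (Phi_le hna l U J) (v.nonneg _)
      _ < (nu v X * nu v J') ^ (l - 1) * (nu v U * nu v J) ^ (l - 1) :=
          mul_lt_mul_of_pos_right (hE X hX) (pow_pos (mul_pos hU hJ) _)
      _ = (nu v X * nu v U * (nu v J * nu v J')) ^ (l - 1) := by
          rw [← mul_pow]
          congr 1
          ring

theorem nu_swap (x : L × L) : nu v (x.2, x.1) = nu v x := max_comm _ _

theorem key (hna : ∀ x y : L, v (x + y) ≤ max (v x) (v y)) (l : ℕ) (X U J J' : L × L)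
    (hX : 0 < nu v X) (hU : 0 < nu v U) (hJ : 0 < nu v J) (hJ' : 0 < nu v J')
    (hrel : v (wd J J') < nu v J * nu v J') :
    v (Phi l X J * Phi l U J' - Phi l X J' * Phi l U J) <
      (nu v X * nu v U * (nu v J * nu v J')) ^ (l - 1) := by
  rcases le_total (v J.2) (v J.1) with h | h
  · exact key1 hna l X U J J' hX hU hJ hJ' h hrel
  · have h1 := key1 (v := v) hna l (X.2, X.1) (U.2, U.1) (J.2, J.1) (J'.2, J'.1)
      (by rwa [nu_swap]) (by rwa [nu_swap]) (by rwa [nu_swap]) (by rwa [nu_swap]) h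
      (by
        rw [nu_swap, nu_swap]
        have : wd (J.2, J.1) (J'.2, J'.1) = -wd J J' := by unfold wd; ring
        rwa [this, map_neg_eq_map])
    rwa [Phi_swap, Phi_swap, Phi_swap, Phi_swap, nu_swap, nu_swap, nu_swap, nu_swap] at h1

/-! ### Ultrametric facts about `wd` -/

theorem wd_le (hna : ∀ x y : L, v (x + y) ≤ max (v x) (v y)) (x y : L × L) :
    v (wd x y) ≤ nu v x * nu v y := by
  have : wd x y = x.1 * y.2 + -(x.2 * y.1) := by unfold wd; ring
  rw [this]
  refine (hna _ _).trans (max_le (v1_le x y) ?_)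
  rw [map_neg_eq_map]
  exact v2_le x y

theorem rel_trans (hna : ∀ x y : L, v (x + y) ≤ max (v x) (v y)) {a b c : L × L}
    (ha : 0 < nu v a) (hb : 0 < nu v b) (hc : 0 < nu v c)
    (h1 : v (wd a b) < nu v a * nu v b) (h2 : v (wd b c) < nu v b * nu v c) :
    v (wd a c) < nu v a * nu v c := by
  have hgen : ∀ a' b' c' : L, wd a c * b' = wd b c * a' + wd a b * c' → v a' ≤ nu v a →
      v b' = nu v b → v c' ≤ nu v c → v (wd a c) < nu v a * nu v c := by
    intro a' b' c' h ha' hb' hc'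
    have h3 : v (wd a c) * nu v b < nu v a * nu v c * nu v b := by
      rw [← hb', ← map_mul, h]
      refine (hna _ _).trans_lt (max_lt ?_ ?_)
      · rw [map_mul, hb']
        calc v (wd b c) * v a' ≤ v (wd b c) * nu v a := mul_le_mul_of_nonneg_left ha' (v.nonneg _)
          _ < (nu v b * nu v c) * nu v a := mul_lt_mul_of_pos_right h2 ha
          _ = nu v a * nu v c * nu v b := by ring
      · rw [map_mul, hb']
        calc v (wd a b) * v c' ≤ v (wd a b) * nu v c := mul_le_mul_of_nonneg_left hc' (v.nonneg _)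
          _ < (nu v a * nu v b) * nu v c := mul_lt_mul_of_pos_right h1 hc
          _ = nu v a * nu v c * nu v b := by ring
    exact lt_of_mul_lt_mul_right h3 hb.le
  rcases le_total (v b.1) (v b.2) with h | h
  · exact hgen a.2 b.2 c.2 (by unfold wd; ring) (le_max_right _ _) (max_eq_right h).symm
      (le_max_right _ _)
  · exact hgen a.1 b.1 c.1 (by unfold wd; ring) (le_max_left _ _) (max_eq_left h).symm
      (le_max_left _ _)

theorem mm_eq {x y : L × L} (h1 : ¬ (v x.2 < v x.1 ∧ v y.2 < v y.1))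
    (h2 : ¬ (v x.1 < v x.2 ∧ v y.1 < v y.2)) : mm v x y = nu v x * nu v y := by
  unfold mm nu
  rw [map_mul, map_mul]
  have n1 := v.nonneg x.1
  have n2 := v.nonneg x.2
  have n3 := v.nonneg y.1
  have n4 := v.nonneg y.2
  rcases le_total (v x.1) (v x.2) with h | h <;> rcases le_total (v y.1) (v y.2) with h' | h'
  · rw [max_eq_right h, max_eq_right h']
    rcases eq_or_lt_of_le h with e | e
    · rw [e]
      exact max_eq_left (mul_le_mul_of_nonneg_left h' n2)
    · rcases eq_or_lt_of_le h' with e' | e'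
      · rw [e']
        exact max_eq_right (mul_le_mul_of_nonneg_right h n4)
      · exact absurd ⟨e, e'⟩ h2
  · rw [max_eq_right h, max_eq_left h']
    exact max_eq_right (mul_le_mul h h' n4 n2)
  · rw [max_eq_left h, max_eq_right h']
    exact max_eq_left (mul_le_mul h h' n3 n1)
  · rw [max_eq_left h, max_eq_left h']
    rcases eq_or_lt_of_le h with e | e
    · rw [← e]
      exact max_eq_right (mul_le_mul_of_nonneg_left h' n2)
    · rcases eq_or_lt_of_le h' with e' | e'
      · rw [← e']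
        exact max_eq_left (mul_le_mul_of_nonneg_right h n4)
      · exact absurd ⟨e, e'⟩ h1

/-! ### The positions -/

/-- There is a coordinate `ρ` such that the vectors with first coordinate divided by `ρ` are of norm
given by both coordinates, with at most one exception of each kind. -/
theorem exists_rho {n : ℕ} (hn : 4 ≤ n) {V : ℤ → L × L} (hV : Fam n V)
    (hH : ∀ a b c d : ℤ, Dis4 n a b c d →
      mm v (V a) (V b) * mm v (V c) (V d) = mm v (V a) (V c) * mm v (V b) (V d)) :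
    ∃ ρ : L, ρ ≠ 0 ∧ ∀ i j : ℤ, ¬ (n : ℤ) ∣ i - j →
      mm v ((V i).1 / ρ, (V i).2) ((V j).1 / ρ, (V j).2) =
        nu v ((V i).1 / ρ, (V i).2) * nu v ((V j).1 / ρ, (V j).2) := by
  obtain ⟨hper, hwd⟩ := hV
  have hcong : ∀ i j : ℤ, (n : ℤ) ∣ i - j → V i = V j := by
    intro i j h
    obtain ⟨k, hk⟩ := h
    have hp : Function.Periodic V (n : ℤ) := hper
    have h1 := (hp.int_mul k) j
    have h2 : j + k * (n : ℤ) = i := by linarith
    rw [← h2]
    exact h1
  -- the coordinates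
  obtain ⟨A, hA⟩ : ∃ A : ℤ → ℝ, ∀ i, A i = v (V i).1 := ⟨_, fun _ => rfl⟩
  obtain ⟨B, hB⟩ : ∃ B : ℤ → ℝ, ∀ i, B i = v (V i).2 := ⟨_, fun _ => rfl⟩
  have hA0 : ∀ i, 0 ≤ A i := fun i => by rw [hA]; exact v.nonneg _
  have hB0 : ∀ i, 0 ≤ B i := fun i => by rw [hB]; exact v.nonneg _
  have hAA : ∀ i j, ¬ (n : ℤ) ∣ i - j → A i = 0 → A j ≠ 0 := by
    intro i j hij h1 h2
    rw [hA, AbsoluteValue.eq_zero] at h1 h2
    apply hij
    rw [← hwd i j]
    unfold wd
    rw [h1, h2]
    ring
  have hBB : ∀ i j, ¬ (n : ℤ) ∣ i - j → B i = 0 → B j ≠ 0 := by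
    intro i j hij h1 h2
    rw [hB, AbsoluteValue.eq_zero] at h1 h2
    apply hij
    rw [← hwd i j]
    unfold wd
    rw [h1, h2]
    ring
  have hpos : ∀ i, 0 < A i + B i := by
    intro i
    rcases eq_or_lt_of_le (add_nonneg (hA0 i) (hB0 i)) with h | h
    · exfalso
      have h1 : A i = 0 := by linarith [hA0 i, hB0 i]
      have h2 : B i = 0 := by linarith [hA0 i, hB0 i]
      rw [hA, AbsoluteValue.eq_zero] at h1
      rw [hB, AbsoluteValue.eq_zero] at h2
      have h3 : (n : ℤ) ∣ i - (i + 1) := by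
        rw [← hwd i (i + 1)]
        unfold wd
        rw [h1, h2]
        ring
      have h4 : i - (i + 1) = -1 := by ring
      rw [h4, dvd_neg] at h3
      have := Int.le_of_dvd one_pos h3
      omega
    · exact h
  obtain ⟨t, ht⟩ : ∃ t : ℤ → ℝ, ∀ i, t i = A i / (A i + B i) := ⟨_, fun _ => rfl⟩
  have htle : ∀ i j, t j ≤ t i ↔ A j * B i ≤ A i * B j := by
    intro i j
    rw [ht, ht, div_le_div_iff₀ (hpos j) (hpos i)]
    constructor <;> intro h <;> nlinarith
  have htlt : ∀ i j, t j < t i ↔ A j * B i < A i * B j := by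
    intro i j
    rw [← not_le, ← not_le, htle j i]
  have htc : ∀ i j : ℤ, (n : ℤ) ∣ i - j → t i = t j := by
    intro i j h
    rw [ht, ht, hA, hA, hB, hB, hcong i j h]
  have hmm : ∀ i j, t j ≤ t i → mm v (V i) (V j) = A i * B j := by
    intro i j h
    unfold mm
    rw [map_mul, map_mul, ← hA, ← hA, ← hB, ← hB]
    rw [htle i j] at h
    exact max_eq_left (by rw [mul_comm]; exact h)
  have hsrt : ∀ a b c d : ℤ, Dis4 n a b c d → t b ≤ t a → t c ≤ t b → t d ≤ t c → t b = t c := by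
    intro a b c d hD hba hcb hdc
    have h1 := hH a b c d hD
    rw [hmm a b hba, hmm c d hdc, hmm a c (hcb.trans hba), hmm b d (hdc.trans hcb)] at h1
    have hAa : A a ≠ 0 := by
      intro h0
      have h2 := (htle a b).1 hba
      rw [h0, zero_mul] at h2
      have hBa : 0 < B a := by
        have := hpos a
        rw [h0, zero_add] at this
        exact this
      have h3 : A b = 0 := by
        have h4 : A b * B a = 0 := le_antisymm h2 (mul_nonneg (hA0 b) (hB0 a))
        exact (mul_eq_zero.1 h4).resolve_right hBa.ne'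
      exact hAA a b hD.1 h0 h3
    have hBd : B d ≠ 0 := by
      intro h0
      have h2 := (htle c d).1 hdc
      rw [h0, mul_zero] at h2
      have hAd : 0 < A d := by
        have := hpos d
        rw [h0, add_zero] at this
        exact this
      have h3 : B c = 0 := by
        have h4 : A d * B c = 0 := le_antisymm h2 (mul_nonneg (hA0 d) (hB0 c))
        exact (mul_eq_zero.1 h4).resolve_left hAd.ne'
      exact hBB c d hD.2.2.2.2.2 h3 h0
    have h5 : (A a * B d) * (B b * A c) = (A a * B d) * (B c * A b) := by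
      linear_combination h1
    have h6 := mul_left_cancel₀ (mul_ne_zero hAa hBd) h5
    refine le_antisymm ((htle c b).2 ?_) hcb
    linarith [mul_comm (B b) (A c), mul_comm (B c) (A b)]
  -- two classes with the same position
  obtain ⟨m, m', hmm', htm⟩ : ∃ m m' : ℤ, ¬ (n : ℤ) ∣ m - m' ∧ t m = t m' := by
    let f : Fin 4 → ℝ := fun i => t ((i : ℕ) : ℤ)
    have hσ : Monotone (f ∘ Tuple.sort f) := Tuple.monotone_sort f
    have hinc : ∀ i j : Fin 4, i ≠ j →
        ¬ (n : ℤ) ∣ (((Tuple.sort f i : Fin 4) : ℕ) : ℤ) - (((Tuple.sort f j : Fin 4) : ℕ) : ℤ) := by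
      intro i j hij h
      have hne : Tuple.sort f i ≠ Tuple.sort f j := fun h' => hij ((Tuple.sort f).injective h')
      have h1 := (Tuple.sort f i).isLt
      have h2 := (Tuple.sort f j).isLt
      have h3 := Int.eq_zero_of_abs_lt_dvd h (by rw [abs_lt]; constructor <;> omega)
      apply hne
      apply Fin.ext
      omega
    refine ⟨((Tuple.sort f 2 : Fin 4) : ℕ), ((Tuple.sort f 1 : Fin 4) : ℕ), hinc _ _ (by decide), ?_⟩
    refine hsrt ((Tuple.sort f 3 : Fin 4) : ℕ) _ _ ((Tuple.sort f 0 : Fin 4) : ℕ)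
      ⟨hinc _ _ (by decide), hinc _ _ (by decide), hinc _ _ (by decide), hinc _ _ (by decide),
        hinc _ _ (by decide), hinc _ _ (by decide)⟩ ?_ ?_ ?_
    · exact hσ (show (2 : Fin 4) ≤ 3 by decide)
    · exact hσ (show (1 : Fin 4) ≤ 2 by decide)
    · exact hσ (show (0 : Fin 4) ≤ 1 by decide)
  have hsym : ∀ i j : ℤ, ¬ (n : ℤ) ∣ i - j → ¬ (n : ℤ) ∣ j - i := by
    intro i j h h'
    exact h (by rw [← neg_sub]; exact (dvd_neg).2 h')
  have hdis : ∀ i j : ℤ, t i ≠ t j → ¬ (n : ℤ) ∣ i - j := fun i j h h' => h (htc i j h')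
  have hGG' : ∀ i j, ¬ (n : ℤ) ∣ i - j → t m < t i → t m < t j → t j ≤ t i → False := by
    intro i j hij hi hj hji
    have h1 := hsrt i j m m' ⟨hij, hdis _ _ hi.ne', hdis _ _ (htm ▸ hi.ne'), hdis _ _ hj.ne',
      hdis _ _ (htm ▸ hj.ne'), hmm'⟩ hji hj.le htm.ge
    rw [h1] at hj
    exact lt_irrefl _ hj
  have hGG : ∀ i j, ¬ (n : ℤ) ∣ i - j → t m < t i → t m < t j → False := by
    intro i j hij hi hj
    rcases le_total (t j) (t i) with h | h
    · exact hGG' i j hij hi hj h
    · exact hGG' j i (hsym _ _ hij) hj hi h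
  have hLL' : ∀ i j, ¬ (n : ℤ) ∣ i - j → t i < t m → t j < t m → t i ≤ t j → False := by
    intro i j hij hi hj hji
    have h1 := hsrt m m' j i ⟨hmm', hdis _ _ hj.ne', hdis _ _ hi.ne', hdis _ _ (htm ▸ hj.ne'),
      hdis _ _ (htm ▸ hi.ne'), hsym _ _ hij⟩ htm.ge (htm ▸ hj.le) hji
    rw [← h1, ← htm] at hj
    exact lt_irrefl _ hj
  have hLL : ∀ i j, ¬ (n : ℤ) ∣ i - j → t i < t m → t j < t m → False := by
    intro i j hij hi hj
    rcases le_total (t i) (t j) with h | h
    · exact hLL' i j hij hi hj h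
    · exact hLL' j i (hsym _ _ hij) hj hi h
  have hAm : 0 < A m := by
    refine lt_of_le_of_ne (hA0 m) fun h0 => ?_
    have h1 : t m = 0 := by rw [ht, ← h0, zero_div]
    rw [htm, ht, div_eq_zero_iff] at h1
    exact hAA m m' hmm' h0.symm (h1.resolve_right (hpos m').ne')
  have hBm : 0 < B m := by
    refine lt_of_le_of_ne (hB0 m) fun h0 => ?_
    have h1 : t m = 1 := by
      rw [ht, ← h0, add_zero]
      exact div_self hAm.ne'
    rw [htm, ht, div_eq_one_iff_eq (hpos m').ne'] at h1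
    exact hBB m m' hmm' h0.symm (by linarith)
  have hAmB : ∀ i, v ((V i).1 / ((V m).1 / (V m).2)) = A i / (A m / B m) := by
    intro i
    rw [map_div₀, map_div₀, hA, hA, hB]
  refine ⟨(V m).1 / (V m).2, ?_, ?_⟩
  · apply div_ne_zero
    · intro h
      rw [hA, h, map_zero] at hAm
      exact lt_irrefl _ hAm
    · intro h
      rw [hB, h, map_zero] at hBm
      exact lt_irrefl _ hBm
  · intro i j hij
    have hgt : ∀ i, B i < A i / (A m / B m) → t m < t i := by
      intro i h
      rw [htlt i m]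
      rw [lt_div_iff₀ (div_pos hAm hBm), ← mul_div_assoc, div_lt_iff₀ hBm] at h
      linarith [mul_comm (B i) (A m)]
    have hlt : ∀ i, A i / (A m / B m) < B i → t i < t m := by
      intro i h
      rw [htlt m i]
      rw [div_lt_iff₀ (div_pos hAm hBm), ← mul_div_assoc, lt_div_iff₀ hBm] at h
      linarith [mul_comm (B i) (A m)]
    apply mm_eq
    · simp only
      rw [hAmB, hAmB, ← hB, ← hB]
      rintro ⟨h1, h2⟩
      exact hGG i j hij (hgt i h1) (hgt j h2)
    · simp only
      rw [hAmB, hAmB, ← hB, ← hB]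
      rintro ⟨h1, h2⟩
      exact hLL i j hij (hlt i h1) (hlt j h2)

end Pool.Agent.N160.UR.STG

namespace Pool.Agent.N160.UR

open Finset Pool.Agent.N236.UR Pool.Agent.N236.UB Pool.Agent.N160.UR.STG

theorem t_stg : S_EPOW → S_STG := by
  intro hE L _ v p q e l n hLoc hp hl hpl hco hn V hV hH
  have hna := hLoc.1
  obtain ⟨ρ, hρ0, hρ⟩ := exists_rho hn hV hH
  have hVf := hV
  obtain ⟨hper, hwd⟩ := hV
  have hcong : ∀ i j : ℤ, (n : ℤ) ∣ i - j → V i = V j := by
    intro i j h
    obtain ⟨k, hk⟩ := h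
    have hp : Function.Periodic V (n : ℤ) := hper
    have h1 := (hp.int_mul k) j
    have h2 : j + k * (n : ℤ) = i := by linarith
    rw [← h2]
    exact h1
  obtain ⟨y, hy⟩ : ∃ y : ℤ → L × L, ∀ i, y i = ((V i).1 / ρ, (V i).2) := ⟨_, fun _ => rfl⟩
  have hR : 0 < v ρ := v.pos hρ0
  have hw : ∀ i j, wd (V i) (V j) = ρ * wd (y i) (y j) := by
    intro i j
    rw [hy, hy]
    unfold wd
    simp only
    field_simp
  have hwp : ∀ i j, wd (pw l (V i)) (pw l (V j)) = ρ ^ l * wd (pw l (y i)) (pw l (y j)) := by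
    intro i j
    rw [hy, hy]
    unfold wd pw
    simp only
    rw [div_pow, div_pow]
    field_simp
  have hwy : ∀ i j : ℤ, ¬ (n : ℤ) ∣ i - j → wd (y i) (y j) ≠ 0 := by
    intro i j hij h0
    apply hij
    rw [← hwd i j, hw, h0, mul_zero]
  have hmmy : ∀ i j : ℤ, ¬ (n : ℤ) ∣ i - j → mm v (y i) (y j) = nu v (y i) * nu v (y j) := by
    intro i j hij
    rw [hy, hy]
    exact hρ i j hij
  have hnu : ∀ i, 0 < nu v (y i) := by
    intro i
    rcases eq_or_lt_of_le (nu_nonneg (v := v) (y i)) with h | h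
    · exfalso
      have h1 : v (y i).1 = 0 := le_antisymm (h ▸ le_max_left _ _) (v.nonneg _)
      have h2 : v (y i).2 = 0 := le_antisymm (h ▸ le_max_right _ _) (v.nonneg _)
      rw [AbsoluteValue.eq_zero] at h1 h2
      apply hwy i (i + 1)
      · intro h3
        have h4 : i - (i + 1) = -1 := by ring
        rw [h4, dvd_neg] at h3
        have := Int.le_of_dvd one_pos h3
        omega
      · unfold wd
        rw [h1, h2]
        ring
    · exact h
  have hPhi : ∀ i j : ℤ, ¬ (n : ℤ) ∣ i - j →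
      v (Phi l (y i) (y j)) = (nu v (y i) * nu v (y j)) ^ (l - 1) := by
    intro i j hij
    have h1 := (hE L v p q e l hLoc hp (by omega) hpl hco).1 (y i) (y j)
    rw [Phi_wd, map_mul, hmmy i j hij] at h1
    exact mul_left_cancel₀ (by
      rw [Ne, AbsoluteValue.eq_zero]
      exact hwy i j hij) h1
  refine ⟨fun i j => v (wd (y i) (y j)) < nu v (y i) * nu v (y j),
    fun i => Real.sqrt (v ρ) * nu v (y i), ⟨⟨?_, ?_, ?_⟩, ?_, ?_, ?_, ?_, ?_⟩, ?_⟩
  · intro i
    have : wd (y i) (y i) = 0 := by unfold wd; ring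
    rw [this, map_zero]
    exact mul_pos (hnu i) (hnu i)
  · intro i j h
    have : wd (y j) (y i) = -wd (y i) (y j) := by unfold wd; ring
    rw [this, map_neg_eq_map, mul_comm]
    exact h
  · intro i j k h1 h2
    exact rel_trans hna (hnu i) (hnu j) (hnu k) h1 h2
  · intro i j j' hj h
    have : y j' = y j := by rw [hy, hy, hcong j j' hj]
    rw [this]
    exact h
  · intro i
    exact mul_pos (Real.sqrt_pos.2 hR) (hnu i)
  · intro i
    have : y (i + n) = y i := by rw [hy, hy, hper]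
    simp only [this]
  · intro i j h
    have h1 : v (wd (y i) (y j)) = nu v (y i) * nu v (y j) :=
      le_antisymm (wd_le hna _ _) (not_lt.1 h)
    unfold dl
    rw [hw, map_mul, h1]
    have h2 := Real.mul_self_sqrt hR.le
    linear_combination (-(nu v (y i) * nu v (y j))) * h2
  · intro i j h
    unfold dl
    rw [hw, map_mul]
    have h2 := Real.mul_self_sqrt hR.le
    have h3 : Real.sqrt (v ρ) * nu v (y i) * (Real.sqrt (v ρ) * nu v (y j)) =
        v ρ * (nu v (y i) * nu v (y j)) := by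
      linear_combination (nu v (y i) * nu v (y j)) * h2
    rw [h3, one_mul, one_mul]
    exact mul_lt_mul_of_pos_left h hR
  · intro i u j j' hD hrel
    obtain ⟨hiu, hij, hij', huj, huj', hjj'⟩ := hD
    -- the main inequality
    have hmain : v (Phi l (y i) (y j) * Phi l (y u) (y j') - Phi l (y i) (y j') * Phi l (y u) (y j)) <
        v (Phi l (y i) (y j') * Phi l (y u) (y j)) := by
      have h1 : v (Phi l (y i) (y j') * Phi l (y u) (y j)) =
          (nu v (y i) * nu v (y u) * (nu v (y j) * nu v (y j'))) ^ (l - 1) := by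
        rw [map_mul, hPhi i j' hij', hPhi u j huj, ← mul_pow]
        congr 1
        ring
      rw [h1]
      rcases hrel with h | h
      · have h2 := key (v := v) hna l (y j) (y j') (y i) (y u) (hnu j) (hnu j') (hnu i) (hnu u) h
        rw [Phi_comm l (y j) (y i), Phi_comm l (y j') (y u), Phi_comm l (y j) (y u),
          Phi_comm l (y j') (y i)] at h2
        have e1 : Phi l (y i) (y j) * Phi l (y u) (y j') - Phi l (y i) (y j') * Phi l (y u) (y j) =
          Phi l (y i) (y j) * Phi l (y u) (y j') - Phi l (y u) (y j) * Phi l (y i) (y j') := by ring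
        have e2 : nu v (y i) * nu v (y u) * (nu v (y j) * nu v (y j')) =
          nu v (y j) * nu v (y j') * (nu v (y i) * nu v (y u)) := by ring
        rw [e1, e2]
        exact h2
      · exact key (v := v) hna l (y i) (y u) (y j) (y j') (hnu i) (hnu u) (hnu j) (hnu j') h
    obtain ⟨c, hc⟩ : ∃ c, c = ρ ^ (2 * l + 2) * (wd (y i) (y j) * wd (y u) (y j') * wd (y i) (y j') *
      wd (y u) (y j)) := ⟨_, rfl⟩
    have hc0 : c ≠ 0 := by
      rw [hc]
      exact mul_ne_zero (pow_ne_zero _ hρ0) (mul_ne_zero (mul_ne_zero (mul_ne_zero (hwy i j hij)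
        (hwy u j' huj')) (hwy i j' hij')) (hwy u j huj))
    have hD' : wd (pw l (V i)) (pw l (V j')) * wd (pw l (V u)) (pw l (V j)) *
        (wd (V i) (V j) * wd (V u) (V j')) = c * (Phi l (y i) (y j') * Phi l (y u) (y j)) := by
      rw [hwp, hwp, hw, hw, Phi_wd, Phi_wd, hc]
      ring
    have hN' : wd (pw l (V i)) (pw l (V j)) * wd (pw l (V u)) (pw l (V j')) *
        (wd (V i) (V j') * wd (V u) (V j)) = c * (Phi l (y i) (y j) * Phi l (y u) (y j')) := by
      rw [hwp, hwp, hw, hw, Phi_wd, Phi_wd, hc]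
      ring
    rw [hD', hN', ← mul_sub, map_mul, map_mul v c (Phi l (y i) (y j') * Phi l (y u) (y j))]
    exact mul_lt_mul_of_pos_left hmain (v.pos hc0)

end Pool.Agent.N160.UR
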